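import Pool.Agent.Helper97.Nag.Goals1

/-!
PROJECT NAGATA, packet DIMV: rank and kernel, multiplicities `M i`.
-/

set_option autoImplicit false

noncomputable section

namespace Pool.Agent.Helper66.Nag.DIMV

open Module Pool.Agent.Helper97 Pool.Agent.Helper97.Nag

/-- the extension by zero from the set `C` -/
def ext {K : Type} [Field K] (lam : ℕ) (ν : ℕ → ℕ) (C : Finset (ℕ × ℕ)) :
    (C → K) →ₗ[K] (∀ j : Fin lam, Fin (ν j) → K) where
  toFun a j r := if h : ((j : ℕ), (r : ℕ)) ∈ C then a ⟨_, h⟩ else 0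
  map_add' a b := by
    funext j r
    by_cases h : ((j : ℕ), (r : ℕ)) ∈ C
    · simp [h]
    · simp [h]
  map_smul' c a := by
    funext j r
    by_cases h : ((j : ℕ), (r : ℕ)) ∈ C
    · simp [h]
    · simp [h]

theorem ext_apply {K : Type} [Field K] (lam : ℕ) (ν : ℕ → ℕ) (C : Finset (ℕ × ℕ)) (a : C → K)
    (j : Fin lam) (r : Fin (ν j)) : ext lam ν C a j r =
      if h : ((j : ℕ), (r : ℕ)) ∈ C then a ⟨_, h⟩ else 0 := rfl

theorem sum_C {K : Type} [Field K] (lam : ℕ) (ν : ℕ → ℕ) (C : Finset (ℕ × ℕ))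
    (hC : ∀ c ∈ C, c.1 < lam ∧ c.2 < ν c.1) (f : ℕ × ℕ → K) :
    ∑ c ∈ C, f c = ∑ j : Fin lam, ∑ r : Fin (ν j),
      if ((j : ℕ), (r : ℕ)) ∈ C then f ((j : ℕ), (r : ℕ)) else 0 := by
  have e1 : ∑ j : Fin lam, ∑ r : Fin (ν j),
      (if ((j : ℕ), (r : ℕ)) ∈ C then f ((j : ℕ), (r : ℕ)) else 0) =
      ∑ j ∈ Finset.range lam, ∑ r ∈ Finset.range (ν j), (if (j, r) ∈ C then f (j, r) else 0) := by
    rw [Finset.sum_range (fun j => ∑ r ∈ Finset.range (ν j), (if (j, r) ∈ C then f (j, r) else 0))]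
    apply Finset.sum_congr rfl
    intro j _
    rw [Finset.sum_range (fun r => (if ((j : ℕ), r) ∈ C then f ((j : ℕ), r) else 0))]
  rw [e1, Finset.sum_sigma', ← Finset.sum_filter]
  symm
  refine Finset.sum_bij' (fun x _ => (x.1, x.2)) (fun c _ => ⟨c.1, c.2⟩) ?_ ?_ ?_ ?_ ?_
  · intro x hx
    exact (Finset.mem_filter.mp hx).2
  · intro c hc
    rw [Finset.mem_filter, Finset.mem_sigma, Finset.mem_range, Finset.mem_range]
    exact ⟨⟨(hC c hc).1, (hC c hc).2⟩, hc⟩
  · intro x _
    rfl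
  · intro c _
    rfl
  · intro x _
    rfl

theorem t : S_DIMV := by
  intro K _ b lam M ν Y S C hC hI
  have hinj : Function.Injective (ext (K := K) lam ν C) := by
    intro v v' h
    funext c
    have h1 := hC c.1 c.2
    have h2 := congrFun (congrFun h ⟨c.1.1, h1.1⟩) ⟨c.1.2, h1.2⟩
    rw [ext_apply, ext_apply] at h2
    have h3 : (c.1.1, c.1.2) ∈ C := c.2
    rw [dif_pos h3, dif_pos h3] at h2
    exact h2
  have hdis : Disjoint (KerV M lam ν Y S) (LinearMap.range (ext (K := K) lam ν C)) := by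
    rw [Submodule.disjoint_def]
    rintro x hx ⟨v, rfl⟩
    have key : ∀ c ∈ C, (fun c => if h : c ∈ C then v ⟨c, h⟩ else 0 : ℕ × ℕ → K) c = 0 := by
      apply hI
      intro i α β hab
      rw [sum_C lam ν C hC]
      have h1 := hx i α β hab
      refine Eq.trans ?_ h1
      apply Finset.sum_congr rfl
      intro j _
      rw [Finset.mul_sum]
      apply Finset.sum_congr rfl
      intro r _
      rw [ext_apply]
      by_cases h : ((j : ℕ), (r : ℕ)) ∈ C
      · rw [if_pos h, dif_pos h]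
        ring
      · rw [if_neg h, dif_neg h]
        ring
    have hv : v = 0 := by
      funext c
      have h1 := key c.1 c.2
      simp only [c.2, dif_pos] at h1
      exact h1
    rw [hv, map_zero]
  have h1 := Submodule.finrank_add_finrank_le_of_disjoint hdis
  rw [LinearMap.finrank_range_of_inj hinj, Module.finrank_fintype_fun_eq_card, Fintype.card_coe,
    Module.finrank_pi_fintype] at h1
  refine h1.trans (le_of_eq ?_)
  rw [Finset.sum_range]
  apply Finset.sum_congr rfl
  intro j _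
  rw [Module.finrank_fin_fun]

end Pool.Agent.Helper66.Nag.DIMV
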